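import Pool.Agent.Q14.CV.Pre

/-!
# Project CV of helper273, job CV1: the points above the elements of a fixed number field
-/

set_option autoImplicit false

namespace Pool.Agent.Q14.CV

open IsDedekindDomain NumberField MeasureTheory NumberField.mixedEmbedding
open scoped Polynomial
open Q273.AD (FinAd LawPA prA)
open Q273.CV
open Q273.MV (Pts kap expo hh sI)
open Pool.Agent.Results.MP_4d5ce1_nt.ExceptionalSetExponents (counting)

theorem combine {W h DL DK R n m μ ε q C₁ C N P : ℝ} (hn : 0 < n) (hm : 0 < m)
    (hmas : W + m * N + (q - μ) * (m * (n * h)) ≤ DL - m * DK + n * m * R +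
      (q + ε / 2) * (m * (n * h)) + n * m * C₁)
    (hcnt : P + (q - 2) * (n * h) ≤ N + ε / 2 * (n * h) + C) :
    P / n + W / (n * m) + (q - 2 - μ) * h ≤
      DL / (n * m) - m * DK / (n * m) + ε * h + R + (C₁ + C / n) := by
  have hnm : 0 < n * m := mul_pos hn hm
  have h1 := mul_le_mul_of_nonneg_left hcnt hm.le
  have e1 : P / n + W / (n * m) + (q - 2 - μ) * h =
      (m * P + W + (q - 2 - μ) * (m * (n * h))) / (n * m) := by
    field_simp
  have e2 : DL / (n * m) - m * DK / (n * m) + ε * h + R + (C₁ + C / n) =
      (DL - m * DK + ε * (m * (n * h)) + n * m * R + n * m * C₁ + m * C) / (n * m) := by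
    field_simp
    ring
  rw [e1, e2]
  refine div_le_div_of_nonneg_right ?_ hnm.le
  have e3 : m * (P + (q - 2) * (n * h)) = m * P + (q - 2) * (m * (n * h)) := by ring
  have e4 : m * (N + ε / 2 * (n * h) + C) = m * N + ε / 2 * (m * (n * h)) + m * C := by ring
  rw [e3, e4] at h1
  nlinarith [h1, hmas]

theorem cv1 : S_CV1 := by
  intro K _ _ p H1 H2 V A _ _ _ _ _ _ _ q a u y hq hF ε hε
  classical
  obtain ⟨ha, hy0, hyr⟩ := hF
  have hq0 : 0 < q := by omega
  obtain ⟨M, G, C₁, hM, hG, hC₁, hmas⟩ :=
    Pool.Agent.Q183.VC.master hq0 a u y hy0 hyr (half_pos hε)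
  obtain ⟨C₂, hC₂, htriv⟩ := Pool.Agent.Q183.VC.W_le a u y hy0
  obtain ⟨T, hTdef⟩ : ∃ T, T = Pool.Agent.Q183.VC.badT K M.primeFactors a := ⟨_, rfl⟩
  have hT : T.Finite := by
    rw [hTdef]
    exact Pool.Agent.Q183.VC.badT_finite _
      (fun p hp => (Nat.prime_of_mem_primeFactors hp).ne_zero) a ha
  obtain ⟨C₃, hC₃⟩ := H1 q hq (al K a) (al_pts ha) T hT V (ε / 2) (half_pos hε)
  obtain ⟨n, hn⟩ : ∃ n : ℝ, n = Module.finrank ℚ K := ⟨_, rfl⟩
  have hn0 : 0 < n := by rw [hn]; exact_mod_cast Module.finrank_pos
  have hhx : ∀ x : K, hh x = n * height x := fun x => by rw [hn]; exact hh_height x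
  -- the exceptional set
  have hroots : (G.rootSet K).Finite := G.rootSet_finite K
  have hE : {x : K | 3 ≤ q ∧ (∀ l, x * (al K a l).2 - 1 * (al K a l).1 ≠ 0) ∧
      (expo q + ε) * hh x ≤ prA V p (fun _ => x) ∧
      counting T (al K a) x < ((q : ℝ) - 2) *
        Pool.Agent.Results.MP_4d5ce1_nt.ExceptionalSetExponents.height x + 0}.Finite := by
    by_cases h3 : 3 ≤ q
    · exact (H2 q h3 (al K a) (al_pts ha) T hT V 0 ε hε).subset fun x hx => hx.2
    · refine Set.Finite.subset Set.finite_empty fun x hx => ?_
      exact absurd hx.1 h3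
  obtain ⟨B, hB⟩ : ∃ B : Finset K, ∀ x, x ∈ B ↔ (x ∈ G.rootSet K ∨ x ∈ {x : K | 3 ≤ q ∧
      (∀ l, x * (al K a l).2 - 1 * (al K a l).1 ≠ 0) ∧
      (expo q + ε) * hh x ≤ prA V p (fun _ => x) ∧
      counting T (al K a) x < ((q : ℝ) - 2) *
        Pool.Agent.Results.MP_4d5ce1_nt.ExceptionalSetExponents.height x + 0}) :=
    ⟨(hroots.union hE).toFinset, fun x => by rw [Set.Finite.mem_toFinset, Set.mem_union]⟩
  obtain ⟨D, hD⟩ : ∃ D : ℝ, D = ∑ x ∈ B, (|prA V p (fun _ => x)| / n +
      ((q : ℝ) + |canonical u y|) * height x) := ⟨_, rfl⟩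
  have hterm : ∀ x : K, 0 ≤ |prA V p (fun _ => x)| / n +
      ((q : ℝ) + |canonical u y|) * height x := by
    intro x
    have h1 := height_nonneg x
    have h2 := abs_nonneg (prA V p (fun _ => x))
    have h3 := abs_nonneg (canonical u y)
    positivity
  have hD0 : 0 ≤ D := by rw [hD]; exact Finset.sum_nonneg fun x _ => hterm x
  have hDx : ∀ x ∈ B, |prA V p (fun _ => x)| / n +
      ((q : ℝ) + |canonical u y|) * height x ≤ D := by
    intro x hx
    rw [hD]
    exact Finset.single_le_sum (f := fun x => |prA V p (fun _ => x)| / n +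
      ((q : ℝ) + |canonical u y|) * height x) (fun x _ => hterm x) hx
  refine ⟨C₁ + C₂ + |C₃| / n + D, ?_⟩
  intro x hxa L _ _ _ φ S hφ hS
  obtain ⟨m, hm⟩ : ∃ m : ℝ, m = Module.finrank K L := ⟨_, rfl⟩
  have hm0 : 0 < m := by rw [hm]; exact_mod_cast Module.finrank_pos
  have htow : (Module.finrank ℚ L : ℝ) = n * m := by
    rw [hn, hm]
    exact_mod_cast (Module.finrank_mul_finrank ℚ K L).symm
  have hnm : 0 < n * m := mul_pos hn0 hm0
  have hz0 : ∀ j, φ (y j 0) ≠ 0 := by
    intro j h
    rw [hy0 j, map_sub, hφ, sub_eq_zero] at h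
    apply hxa j
    apply FaithfulSMul.algebraMap_injective K L
    rw [h, map_ratCast]
    exact eq_ratCast (φ.comp ((algebraMap ℚ[X] A).comp Polynomial.C)) (a j)
  have hh0 : 0 ≤ height x := height_nonneg x
  have hR : 0 ≤ ∑ p ∈ S, Real.log p := Finset.sum_nonneg fun p _ => Real.log_natCast_nonneg _
  have hdL : logDisc L = Real.log |(discr L : ℝ)| / (n * m) := by
    rw [← htow]
    rfl
  have hdK : logDisc K = m * Real.log |(discr K : ℝ)| / (n * m) := by
    unfold logDisc
    rw [← hn]
    field_simp
  have hprox := proximity_eq S u y L φ hz0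
  rw [htow] at hprox
  have hC3n : 0 ≤ |C₃| / n := div_nonneg (abs_nonneg _) hn0.le
  have hεh : 0 ≤ ε * height x := mul_nonneg hε.le hh0
  -- the trivial bound
  have htr : proximity S u y L φ ≤ q * height x + C₂ := by
    have h2 := htriv K x hxa L φ S hφ
    rw [← hm, htow, height_eq x, ← hn] at h2
    rw [hprox, div_le_iff₀ hnm]
    linarith [h2]
  have hdd : logDisc K ≤ logDisc L := by
    have h3 := Pool.Agent.Q183.VC.disc_le K L
    rw [← hm] at h3
    rw [hdL, hdK]
    exact div_le_div_of_nonneg_right h3 hnm.le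
  have hcanh : canonical u y * height x ≤ |canonical u y| * height x :=
    mul_le_mul_of_nonneg_right (le_abs_self _) hh0
  have hpr0 : 0 ≤ |prA V p (fun _ => x)| / n := div_nonneg (abs_nonneg _) hn0.le
  have hpr1 : prA V p (fun _ => x) / n ≤ |prA V p (fun _ => x)| / n :=
    div_le_div_of_nonneg_right (le_abs_self _) hn0.le
  have hxal : ∀ l, x * (al K a l).2 - 1 * (al K a l).1 ≠ 0 := fun l => al_ne hxa l
  have hexc : x ∈ B → prA V p (fun _ => x) / n + proximity S u y L φ +
        canonical u y * height x ≤
          logDisc L - logDisc K + ε * height x + ∑ p ∈ S, Real.log p +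
            (C₁ + C₂ + |C₃| / n + D) ∧
      proximity S u y L φ + canonical u y * height x ≤
          logDisc L - logDisc K + ε * height x + ∑ p ∈ S, Real.log p +
            (C₁ + C₂ + |C₃| / n + D) := by
    intro hx
    have h1 := hDx x hx
    rw [add_mul] at h1
    constructor <;> linarith
  by_cases hxB : x ∈ B
  · rw [← hn]
    exact ⟨fun _ => (hexc hxB).2, fun _ => (hexc hxB).1⟩
  · have hGx : Polynomial.aeval x G ≠ 0 := by
      intro h0
      apply hxB
      rw [hB]
      left
      exact (Polynomial.mem_rootSet_of_ne hG).2 h0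
    obtain ⟨-, h1⟩ := hmas K x hxa hGx L φ S hφ hS
    rw [← hm, htow, height_eq x, ← hn] at h1
    have hcnt := counting_le (S := M.primeFactors) a hxa
    rw [← hTdef, ← hn] at hcnt
    obtain ⟨N, hN⟩ : ∃ N, N = Pool.Agent.W223.VD.cnt M.primeFactors
      (fun j => Pool.Agent.W223.AC.pt (a j)) x := ⟨_, rfl⟩
    rw [← hN] at hcnt h1
    have hcan : canonical u y = q - 2 - (∑ j, (Module.finrank ℚ
      (A ⧸ Ideal.span (Set.range (y j))) : ℝ)) / Module.finrank ℚ[X] A := rfl
    rw [hdL, hdK, hprox, hcan, ← hn]
    constructor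
    · rintro ⟨hq3, hle⟩
      have hle' : (expo q + ε) * hh x ≤ prA V p (fun _ => x) := by
        rw [le_div_iff₀ hn0] at hle
        rw [hhx]
        linarith
      have hge : ((q : ℝ) - 2) * height x ≤ counting T (al K a) x := by
        by_contra hlt
        rw [not_le] at hlt
        apply hxB
        rw [hB]
        right
        refine ⟨hq3, hxal, hle', ?_⟩
        rw [height_eq', add_zero]
        exact hlt
      have h2 : (0 : ℝ) + (q - 2) * (n * height x) ≤ N + ε / 2 * (n * height x) + 0 := by
        have h3 := mul_le_mul_of_nonneg_left hge hn0.le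
        have h4 : 0 ≤ ε / 2 * (n * height x) := by positivity
        have h5 : n * (((q : ℝ) - 2) * height x) = (q - 2) * (n * height x) := by ring
        linarith
      have h3 := combine hn0 hm0 h1 h2
      rw [zero_div, zero_add, add_zero] at h3
      linarith
    · intro hor
      have hlaw := hC₃ x hxal (by
        rcases hor with h2 | h2
        · left
          subst h2
          have h3 : kap 2 = 2 := by
            unfold kap
            rw [if_pos rfl]
          rw [h3]
          have h4 : ∀ l, sI T (al K a l) x ≤ hh x := by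
            intro l
            unfold sI
            have h5 : 0 ≤ (Module.finrank ℚ K : ℝ) * counting T (fun _ : Fin 1 => al K a l) x := by
              rw [Q273.MV.counting_single hT ((al_pts ha).1 l) (hxal l)]
              unfold Pool.Agent.W232.VA.N1
              refine finsum_nonneg fun v => ?_
              split_ifs
              · exact (Pool.Agent.H691R3.log_Nv_pos v).le
              · exact le_rfl
            linarith
          refine (Finset.sum_le_sum fun l _ => h4 l).trans (le_of_eq ?_)
          rw [Finset.sum_const, Finset.card_univ, Fintype.card_fin, nsmul_eq_mul]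
          norm_num
        · right
          rw [le_div_iff₀ hn0] at h2
          rw [hhx]
          have h3 : 0 ≤ ε / 2 * (n * height x) := by positivity
          have h4 : (2 - kap q + ε) * height x * n =
            (2 - kap q + ε / 2) * (n * height x) + ε / 2 * (n * height x) := by ring
          linarith)
      rw [Q273.MV.sum_sI T (al_pts ha).1 hxal, height_eq', hhx, ← hn] at hlaw
      have h2 : prA V p (fun _ => x) + (q - 2) * (n * height x) ≤
          N + ε / 2 * (n * height x) + |C₃| := by
        have h3 := le_abs_self C₃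
        have h4 : n * ((q : ℝ) * height x - counting T (al K a) x) =
          q * (n * height x) - n * counting T (al K a) x := by ring
        rw [h4] at hlaw
        have h5 : (2 + ε / 2) * (n * height x) = 2 * (n * height x) +
          ε / 2 * (n * height x) := by ring
        rw [h5] at hlaw
        have h6 : ((q : ℝ) - 2) * (n * height x) = q * (n * height x) - 2 * (n * height x) := by
          ring
        rw [h6]
        linarith
      have h3 := combine hn0 hm0 h1 h2
      linarith

end Pool.Agent.Q14.CV
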