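import Pool.Agent.Q14.CV.Pre
import Pool.Agent.Q273.QP.Abc
import Pool.Agent.Q227.QP.COND2
import Pool.Agent.W598.VD.TR
import Pool.Agent.W74.VD.GL
import Pool.Agent.W469.CV.MH

/-!
# Project CV of helper273, job CV2: the points above all quadratic points
-/

set_option autoImplicit false

namespace Pool.Agent.Q14.CV

open IsDedekindDomain NumberField Polynomial
open Q273.CV

/-- the height of a root of an irreducible polynomial -/
theorem height_poly {K : Type} [Field K] [NumberField K] {x : K} {f : ℤ[X]} (h0 : x ≠ 0)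
    (hf : Irreducible f) (hx : aeval x f = 0) (hd : f.natDegree = Module.finrank ℚ K) :
    height x = Q273.QP.height f := by
  classical
  have hlc : (f.leadingCoeff : ℝ) ≠ 0 := by
    have := Polynomial.leadingCoeff_ne_zero.2 hf.ne_zero
    exact_mod_cast this
  have h1 : Real.log (f.map (Int.castRingHom ℂ)).mahlerMeasure =
      Real.log |(f.leadingCoeff : ℝ)| + ∑ σ : K →+* ℂ, Real.log (max 1 ‖σ x‖) := by
    rw [Polynomial.mahlerMeasure_eq_leadingCoeff_mul_prod_roots, Q227.QP.roots_eq hf hx hd,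
      Multiset.map_map]
    have h2 : ‖(f.map (Int.castRingHom ℂ)).leadingCoeff‖ = |(f.leadingCoeff : ℝ)| := by
      rw [Polynomial.leadingCoeff_map_of_injective (RingHom.injective_int _)]
      simp
    rw [h2, Real.log_mul (abs_ne_zero.2 hlc)]
    · congr 1
      change Real.log (∏ σ : K →+* ℂ, max 1 ‖σ x‖) = _
      rw [Real.log_prod]
      intro σ _
      exact (lt_of_lt_of_le one_pos (le_max_left _ _)).ne'
    · change (∏ σ : K →+* ℂ, max 1 ‖σ x‖) ≠ 0
      exact (Finset.prod_pos fun σ _ => lt_of_lt_of_le one_pos (le_max_left _ _)).ne'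
  have h2 : height x = (∑ σ : K →+* ℂ, Real.log (max 1 ‖σ x‖) +
      Real.log |(f.leadingCoeff : ℝ)|) / (Module.finrank ℚ K : ℝ) := by
    unfold height
    rw [one_div, inv_mul_eq_div]
    congr 2
    · rw [Q227.QP.sum_places (fun w => Real.log (max 1 (w x)))]
      exact Finset.sum_congr rfl fun σ _ => by rw [InfinitePlace.apply]
    · rw [← Q227.QP.finite_part h0 hf hx hd]
      exact finsum_congr fun v => by rw [max_comm]
  have h3 : Q273.QP.height f = (∑ σ : K →+* ℂ, Real.log (max 1 ‖σ x‖) +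
      Real.log |(f.leadingCoeff : ℝ)|) / (Module.finrank ℚ K : ℝ) := by
    unfold Q273.QP.height
    rw [h1, hd, add_comm]
  rw [h2, h3]

/-- the roots of a polynomial have bounded height, uniformly in the field -/
theorem roots_bound {G : ℚ[X]} (hG : G ≠ 0) : ∃ H : ℝ, 0 ≤ H ∧
    ∀ (K : Type) [Field K] [NumberField K] (x : K), aeval x G = 0 → height x ≤ H := by
  have hfin : (G.rootSet Pool.Agent.H58P.Qb).Finite := G.rootSet_finite _
  obtain ⟨H, hH⟩ := (hfin.image Pool.Agent.H58P.ht).bddAbove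
  refine ⟨max H 0, le_max_right _ _, fun K _ _ x hx => le_max_of_le_left ?_⟩
  let ψ : K →ₐ[ℚ] Pool.Agent.H58P.Qb := IsAlgClosed.lift
  have h1 := Pool.Agent.W469.CV.MH.ht_emb K (ψ : K →+* Pool.Agent.H58P.Qb) x
  have hn : (Module.finrank ℚ K : ℝ) ≠ 0 := by
    have : Module.finrank ℚ K ≠ 0 := Module.finrank_pos.ne'
    exact_mod_cast this
  rw [height_eq x, mul_div_cancel_left₀ _ hn] at h1
  rw [← h1]
  apply hH
  refine ⟨ψ x, ?_, rfl⟩
  rw [Polynomial.mem_rootSet_of_ne hG, Polynomial.aeval_algHom_apply, hx, map_zero]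

/-- the form does not vanish -/
theorem hv_ne {K : Type} [Field K] [NumberField K] {x : K} {f : ℤ[X]} (hf : Irreducible f)
    (hx : aeval x f = 0) (hd : f.natDegree = Module.finrank ℚ K) {r : ℚ} (hr : x ≠ (r : K)) :
    Q273.QP.hv r.num r.den f ≠ 0 := by
  intro h
  apply hr
  have hd0 : f.natDegree ≠ 0 := by
    rw [hd]
    exact Module.finrank_pos.ne'
  have hden : (r.den : ℚ) ≠ 0 := by exact_mod_cast r.den_nz
  -- `r` is a root
  have h1 : aeval r f = 0 := by
    have h2 : ((Q273.QP.hv r.num r.den f : ℤ) : ℚ) = (r.den : ℚ) ^ f.natDegree * aeval r f := by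
      unfold Q273.QP.hv
      rw [aeval_eq_sum_range, Finset.mul_sum]
      push_cast
      refine Finset.sum_congr rfl fun i hi => ?_
      have hi' : i ≤ f.natDegree := Nat.lt_succ_iff.1 (Finset.mem_range.1 hi)
      rw [zsmul_eq_mul]
      have h3 : (r.den : ℚ) ^ f.natDegree = (r.den : ℚ) ^ i * (r.den : ℚ) ^ (f.natDegree - i) := by
        rw [← pow_add, Nat.add_sub_cancel' hi']
      have h4 : (r.num : ℚ) = r * r.den := (Rat.mul_den_eq_num r).symm
      rw [h3, h4, mul_pow]
      ring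
    rw [h] at h2
    rw [Int.cast_zero] at h2
    exact (mul_eq_zero.1 h2.symm).resolve_left (pow_ne_zero _ hden)
  have hirr : Irreducible (f.map (Int.castRingHom ℚ)) :=
    (IsPrimitive.Int.irreducible_iff_irreducible_map_cast (hf.isPrimitive hd0)).1 hf
  have e1 : aeval x (f.map (Int.castRingHom ℚ)) = 0 := by
    have : aeval x (f.map (algebraMap ℤ ℚ)) = 0 := by rw [aeval_map_algebraMap, hx]
    exact this
  have e2 : aeval r (f.map (Int.castRingHom ℚ)) = 0 := by
    have : aeval r (f.map (algebraMap ℤ ℚ)) = 0 := by rw [aeval_map_algebraMap, h1]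
    exact this
  have m1 := minpoly.eq_of_irreducible hirr e1
  have m2 := minpoly.eq_of_irreducible hirr e2
  have m3 : minpoly ℚ x = X - C r := by
    rw [← m1, m2]
    exact minpoly.eq_X_sub_C ℚ r
  have m4 := minpoly.aeval ℚ x
  rw [m3, map_sub, aeval_X, aeval_C, sub_eq_zero] at m4
  rw [m4]
  exact eq_ratCast _ _

theorem combine2 {W h DL DK R n m μ ε q C₁ C N Z : ℝ} (hn : 0 < n) (hm : 0 < m) (hε : 0 ≤ ε)
    (hh : 0 ≤ h)
    (hmas : W + m * N + (q - μ) * (m * (n * h)) ≤ DL - m * DK + n * m * R +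
      (q + ε / 3) * (m * (n * h)) + n * m * C₁)
    (hcnt : n * Z ≤ N) (hlaw : q * h - Z + (-2) * h ≤ DK / n + ε / 3 * h + C) :
    W / (n * m) + (q - 2 - μ) * h ≤ DL / (n * m) + ε * h + R + (C₁ + C) := by
  have hnm : 0 < n * m := mul_pos hn hm
  have h1 := mul_le_mul_of_nonneg_left hlaw hnm.le
  have h2 := mul_le_mul_of_nonneg_left hcnt hm.le
  have e1 : W / (n * m) + (q - 2 - μ) * h =
      (W + (q - 2 - μ) * (m * (n * h))) / (n * m) := by
    field_simp
  have e2 : DL / (n * m) + ε * h + R + (C₁ + C) =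
      (DL + ε * (m * (n * h)) + n * m * R + n * m * C₁ + n * m * C) / (n * m) := by
    field_simp
    ring
  rw [e1, e2]
  refine div_le_div_of_nonneg_right ?_ hnm.le
  have e3 : n * m * (q * h - Z + (-2) * h) = (q - 2) * (m * (n * h)) - m * (n * Z) := by ring
  have e4 : n * m * (DK / n + ε / 3 * h + C) =
      m * DK + ε / 3 * (m * (n * h)) + n * m * C := by
    field_simp
  rw [e3, e4] at h1
  have h3 : 0 ≤ ε * (m * (n * h)) := by positivity
  nlinarith [h1, h2, hmas, h3]

theorem cv2 : S_CV2 := by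
  intro V w hw A _ _ _ _ _ _ _ q a u y hq hF ε hε
  classical
  obtain ⟨ha, hy0, hyr⟩ := hF
  have hq0 : 0 < q := by omega
  obtain ⟨M, G, C₁, hM, hG, hC₁, hmas⟩ :=
    Pool.Agent.Q183.VC.master hq0 a u y hy0 hyr (κ := ε / 3) (by positivity)
  obtain ⟨C₂, hC₂, htriv⟩ := Pool.Agent.Q183.VC.W_le a u y hy0
  have hGX : G * X ≠ 0 := mul_ne_zero hG X_ne_zero
  obtain ⟨H₀, hH₀, hroots⟩ := roots_bound hGX
  have hdet : ∀ i j, i ≠ j → (a i).num * ((a j).den : ℤ) - (a j).num * ((a i).den : ℤ) ≠ 0 := by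
    intro i j hij h
    apply hij
    apply ha
    rw [Rat.eq_iff_mul_eq_mul]
    linear_combination h
  obtain ⟨S', hS'⟩ : ∃ S' : Finset ℕ, S' = M.primeFactors ∪ Finset.univ.biUnion
    (fun i : Fin q => Finset.univ.biUnion fun j : Fin q =>
      ((a i).num * ((a j).den : ℤ) - (a j).num * ((a i).den : ℤ)).natAbs.primeFactors) := ⟨_, rfl⟩
  have hS'p : ∀ p ∈ S', p.Prime := by
    intro p hp
    rw [hS', Finset.mem_union, Finset.mem_biUnion] at hp
    rcases hp with hp | ⟨i, -, hp⟩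
    · exact Nat.prime_of_mem_primeFactors hp
    · rw [Finset.mem_biUnion] at hp
      obtain ⟨j, -, hp⟩ := hp
      exact Nat.prime_of_mem_primeFactors hp
  have hSS : M.primeFactors ⊆ S' := by
    rw [hS']
    exact Finset.subset_union_left
  have hdS : ∀ i j, i ≠ j → ∀ p : ℕ, p.Prime →
      (p : ℤ) ∣ (a i).num * ((a j).den : ℤ) - (a j).num * ((a i).den : ℤ) → p ∈ S' := by
    intro i j hij p hp hdvd
    rw [hS', Finset.mem_union]
    right
    rw [Finset.mem_biUnion]
    refine ⟨i, Finset.mem_univ _, ?_⟩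
    rw [Finset.mem_biUnion]
    refine ⟨j, Finset.mem_univ _, ?_⟩
    rw [Nat.mem_primeFactors]
    exact ⟨hp, Int.natCast_dvd.1 hdvd, Int.natAbs_ne_zero.2 (hdet i j hij)⟩
  have hcop : ∀ j, IsCoprime (a j).num ((a j).den : ℤ) :=
    fun j => Pool.Agent.W223.AC.pt_coprime (a j)
  obtain ⟨C₄, hC₄⟩ := hw S' q (fun j => (a j).num) (fun j => ((a j).den : ℤ)) hS'p hcop hdet
    (ε / 3) (by positivity)
  refine ⟨C₁ + C₂ + |C₄| + (q * H₀ + |canonical u y| * H₀), ?_⟩
  intro K _ _ x f hK2 hf hdeg hxf hxa hpr L _ _ _ φ S hφ hS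
  obtain ⟨n, hn⟩ : ∃ n : ℝ, n = Module.finrank ℚ K := ⟨_, rfl⟩
  have hn0 : 0 < n := by rw [hn]; exact_mod_cast Module.finrank_pos
  obtain ⟨m, hm⟩ : ∃ m : ℝ, m = Module.finrank K L := ⟨_, rfl⟩
  have hm0 : 0 < m := by rw [hm]; exact_mod_cast Module.finrank_pos
  have htow : (Module.finrank ℚ L : ℝ) = n * m := by
    rw [hn, hm]
    exact_mod_cast (Module.finrank_mul_finrank ℚ K L).symm
  have hnm : 0 < n * m := mul_pos hn0 hm0
  have hz0 : ∀ j, φ (y j 0) ≠ 0 := by
    intro j h
    rw [hy0 j, map_sub, hφ, sub_eq_zero] at h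
    apply hxa j
    apply FaithfulSMul.algebraMap_injective K L
    rw [h, map_ratCast]
    exact eq_ratCast (φ.comp ((algebraMap ℚ[X] A).comp Polynomial.C)) (a j)
  have hh0 : 0 ≤ height x := height_nonneg x
  have hR : 0 ≤ ∑ p ∈ S, Real.log p := Finset.sum_nonneg fun p _ => Real.log_natCast_nonneg _
  have hdL : logDisc L = Real.log |(discr L : ℝ)| / (n * m) := by
    rw [← htow]
    rfl
  have hdL0 : 0 ≤ logDisc L := by
    unfold logDisc
    refine div_nonneg (Real.log_nonneg ?_) (Nat.cast_nonneg _)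
    have h1 : (1 : ℤ) ≤ |discr L| := Int.one_le_abs (discr_ne_zero L)
    exact_mod_cast h1
  have hprox := proximity_eq S u y L φ hz0
  rw [htow] at hprox
  have hεh : 0 ≤ ε * height x := mul_nonneg hε.le hh0
  have hC4 : 0 ≤ |C₄| := abs_nonneg _
  have hqH : 0 ≤ (q : ℝ) * H₀ + |canonical u y| * H₀ := by
    have := abs_nonneg (canonical u y)
    positivity
  by_cases hGx : aeval x (G * X) = 0
  · have h1 := hroots K x hGx
    have htr : proximity S u y L φ ≤ q * height x + C₂ := by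
      have h2 := htriv K x hxa L φ S hφ
      rw [← hm, htow, height_eq x, ← hn] at h2
      rw [hprox, div_le_iff₀ hnm]
      linarith [h2]
    have h6 : canonical u y * height x ≤ |canonical u y| * H₀ :=
      (mul_le_mul_of_nonneg_right (le_abs_self _) hh0).trans
        (mul_le_mul_of_nonneg_left h1 (abs_nonneg _))
    have h7 : (q : ℝ) * height x ≤ q * H₀ := mul_le_mul_of_nonneg_left h1 (Nat.cast_nonneg _)
    linarith
  · rw [map_mul, aeval_X] at hGx
    have hx0 : x ≠ 0 := fun h => hGx (by rw [h, mul_zero])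
    have hGx' : aeval x G ≠ 0 := fun h => hGx (by rw [h, zero_mul])
    have hheight := height_poly hx0 hf hxf hdeg
    obtain ⟨-, h1⟩ := hmas K x hxa hGx' L φ S hφ hS
    rw [← hm, htow, height_eq x, ← hn] at h1
    obtain ⟨N, hN⟩ : ∃ N, N = Pool.Agent.W223.VD.cnt M.primeFactors
      (fun j => Pool.Agent.W223.AC.pt (a j)) x := ⟨_, rfl⟩
    have hval : ∀ j, Q273.QP.hv (a j).num ((a j).den : ℤ) f ≠ 0 := fun j =>
      hv_ne hf hxf hdeg (hxa j)
    have htr := Pool.Agent.W598.VD.TR.t Pool.Agent.W74.VD.GL.t K q M.primeFactors S'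
      (fun j => Pool.Agent.W223.AC.pt (a j)) x f (Q227.QP.adjoin_top hf hxf hdeg) hf hdeg hxf
      (fun j => hcop j) hSS (fun i j hij p hp hdvd => hdS i j hij p hp hdvd) hS'p
      (fun j => hval j)
    rw [← hN] at htr h1
    have hZ : Real.log (∏ j, (Pool.Agent.H813R3.Voj.rho S' (Pool.Agent.H813R3.Voj.value f
        (Pool.Agent.W223.AC.pt (a j))) : ℝ)) =
        n * ∑ j, Q273.QP.N1 S' (a j).num ((a j).den : ℤ) f := by
      rw [Real.log_prod, Finset.mul_sum]
      · refine Finset.sum_congr rfl fun j _ => ?_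
        unfold Q273.QP.N1
        rw [hdeg, ← hn, mul_div_cancel₀ _ hn0.ne']
        have h2 : Pool.Agent.H813R3.Voj.value f (Pool.Agent.W223.AC.pt (a j)) =
          Q273.QP.hv (a j).num ((a j).den : ℤ) f := rfl
        rw [h2]
        unfold Pool.Agent.H813R3.Voj.rho
        rw [Nat.cast_prod, Real.log_prod]
        intro p hp
        have h3 := (Nat.prime_of_mem_primeFactors (Finset.mem_sdiff.1 hp).1).ne_zero
        exact_mod_cast h3
      · intro j _
        have h3 := (Pool.Agent.H813R3.Voj.rho_pos S' (Pool.Agent.H813R3.Voj.value f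
          (Pool.Agent.W223.AC.pt (a j)))).ne'
        exact_mod_cast h3
    rw [hZ] at htr
    -- the law
    let ψ : K →ₐ[ℚ] ℂ := IsAlgClosed.lift
    obtain ⟨hz, hdisc⟩ := Q273.QP.logDisc_emb ψ x f hf hdeg hxf
    have hpt : Q273.QP.IsPt f (ψ x) := by
      refine ⟨hf, ?_, ?_, hz⟩
      · rw [hdeg]
        exact Module.finrank_pos
      · rw [hdeg]
        exact hK2
    have hlaw := (hC₄ f (ψ x) hpt hval hpr).1
    rw [hdisc, Finset.sum_sub_distrib, Finset.sum_const, Finset.card_univ, Fintype.card_fin,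
      nsmul_eq_mul, ← hheight, ← hn] at hlaw
    have hcan : canonical u y = q - 2 - (∑ j, (Module.finrank ℚ
      (A ⧸ Ideal.span (Set.range (y j))) : ℝ)) / Module.finrank ℚ[X] A := rfl
    have h3 := combine2 hn0 hm0 hε.le hh0 h1 htr hlaw
    rw [← hcan] at h3
    rw [hdL, hprox]
    have h4 := le_abs_self C₄
    linarith

end Pool.Agent.Q14.CV
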