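import Pool.Agent.Q273.CV.Stm
import Pool.Agent.Q183.VC.Triv
import Pool.Agent.Q183.VC.Cnt

/-!
# Project CV of helper273: preparations for jobs CV1 and CV2
-/

set_option autoImplicit false

namespace Pool.Agent.Q14.CV

open IsDedekindDomain NumberField
open scoped Polynomial
open Q273.CV
open Q273.MV (Pts kap expo hh)
open Pool.Agent.Results.MP_4d5ce1_nt.ExceptionalSetExponents (counting)

open Classical in
theorem proximity_eq {A : Type} [CommRing A] (S : Finset ℕ) {q : ℕ}
    (u : Fin q → ℕ) (y : ∀ j, Fin (u j + 1) → A)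
    (L : Type) [Field L] [NumberField L] (φ : A →+* L) (hz : ∀ j, φ (y j 0) ≠ 0) :
    proximity S u y L φ = Pool.Agent.Q183.VC.W S u y L φ / Module.finrank ℚ L := by
  unfold proximity Pool.Agent.Q183.VC.W
  refine congrArg (fun t : ℝ => t / Module.finrank ℚ L) ?_
  rw [Finset.sum_add_distrib]
  congr 1
  · rw [Finset.sum_comm]
    refine Finset.sum_congr rfl fun w _ => ?_
    rw [Finset.mul_sum]
    rfl
  · unfold Pool.Agent.W223.AC.mS
    rw [← finsum_sum_comm]
    · refine finsum_congr fun v => ?_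
      split_ifs
      · rfl
      · rw [Finset.sum_const_zero]
    · intro j _
      refine (Pool.Agent.Q183.VC.lamF_finite (y j) φ (hz j)).subset fun v hv => ?_
      rw [Function.mem_support] at hv
      intro h
      apply hv
      rw [h, ite_self]

theorem height_eq {K : Type} [Field K] [NumberField K] (x : K) :
    Real.log (Height.mulHeight₁ x) = Module.finrank ℚ K * height x :=
  Pool.Agent.W223.AC.MK.height_eq x

theorem height_nonneg {K : Type} [Field K] [NumberField K] (x : K) : 0 ≤ height x := by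
  have h1 := height_eq x
  have h2 : 0 ≤ Real.log (Height.mulHeight₁ x) := Real.log_nonneg (Height.one_le_mulHeight₁ _)
  have h3 : (0 : ℝ) < Module.finrank ℚ K := by exact_mod_cast Module.finrank_pos
  rw [h1] at h2
  exact nonneg_of_mul_nonneg_right h2 h3

theorem height_eq' {K : Type} [Field K] [NumberField K] (x : K) :
    Pool.Agent.Results.MP_4d5ce1_nt.ExceptionalSetExponents.height x = height x := by
  unfold Pool.Agent.Results.MP_4d5ce1_nt.ExceptionalSetExponents.height height
  rw [one_div, inv_mul_eq_div]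
  congr 2
  · refine Finset.sum_congr rfl fun w _ => ?_
    rw [map_one, max_comm]
  · refine finsum_congr fun v => ?_
    rw [map_one, max_comm]

theorem hh_height {K : Type} [Field K] [NumberField K] (x : K) :
    hh x = Module.finrank ℚ K * height x := by
  rw [Q273.MV.hh_eq, height_eq']

/-- the points `a_j` -/
def al (K : Type) [Field K] [NumberField K] {q : ℕ} (a : Fin q → ℚ) (l : Fin q) : K × K :=
  (((a l).num : K), ((a l).den : K))

section P

variable {K : Type} [Field K] [NumberField K] {q : ℕ} {a : Fin q → ℚ}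

theorem al_pts (ha : Function.Injective a) : Pts (al K a) := by
  refine ⟨fun i h => ?_, fun i j hij h => ?_⟩
  · have h1 := congrArg Prod.snd h
    have h2 : ((a i).den : K) = 0 := h1
    exact (a i).den_nz (by exact_mod_cast h2)
  · apply hij
    apply ha
    have h1 : ((a i).num : K) * ((a j).den : K) - ((a i).den : K) * ((a j).num : K) = 0 := h
    have h2 : (((a i).num * (a j).den - (a i).den * (a j).num : ℤ) : K) = 0 := by
      push_cast
      exact h1
    have h3 : (a i).num * (a j).den - (a i).den * (a j).num = 0 := by exact_mod_cast h2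
    rw [Rat.eq_iff_mul_eq_mul]
    linear_combination h3

theorem al_ne {x : K} (hx : ∀ j, x ≠ (a j : K)) (l : Fin q) :
    x * (al K a l).2 - 1 * (al K a l).1 ≠ 0 := by
  intro h
  apply hx l
  have h1 : x * ((a l).den : K) - 1 * ((a l).num : K) = 0 := h
  have h2 : ((a l).den : K) ≠ 0 := by exact_mod_cast (a l).den_nz
  rw [Rat.cast_def, eq_div_iff h2]
  linear_combination h1

/-- the two truncated counting functions -/
theorem counting_eq (T : Set (HeightOneSpectrum (𝓞 K))) (a : Fin q → ℚ) (X : Fin (1 + 1) → 𝓞 K)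
    (hX : X 1 ≠ 0) :
    (Module.finrank ℚ K : ℝ) * counting T (al K a) ((X 0 : K) / (X 1 : K)) =
      Pool.Agent.Q183.AM.Ntr T 1 (fun i k => ((Pool.Agent.Q183.VC.eqn K a i k : 𝓞 K) : K))
        (fun k => (X k : K)) := by
  classical
  have hd0 : (0 : ℝ) < (Module.finrank ℚ K : ℝ) := by
    have : 0 < Module.finrank ℚ K := Module.finrank_pos
    exact_mod_cast this
  have hX' : (X 1 : K) ≠ 0 := RingOfIntegers.coe_ne_zero_iff.mpr hX
  have key : ∀ (v : HeightOneSpectrum (𝓞 K)) (i : Fin q),
      Real.log (max (FinitePlace.mk v ((X 0 : K) / (X 1 : K))) (FinitePlace.mk v 1) *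
        max (FinitePlace.mk v (al K a i).1) (FinitePlace.mk v (al K a i).2) /
        FinitePlace.mk v ((X 0 : K) / (X 1 : K) * (al K a i).2 - 1 * (al K a i).1)) =
      Pool.Agent.Q183.AM.lam (n := 1) v
        (fun k => ((Pool.Agent.Q183.VC.eqn K a i k : 𝓞 K) : K)) (fun k => (X k : K)) := by
    intro v i
    have h5 : 0 < FinitePlace.mk v (X 1 : K) := FinitePlace.pos_iff.2 hX'
    have hs : ∀ z : Fin (1 + 1) → K, Pool.Agent.Q183.AM.siz (n := 1) v z =
        max (FinitePlace.mk v (z 0)) (FinitePlace.mk v (z 1)) := by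
      intro z
      refine le_antisymm (ciSup_le fun k => ?_) (max_le ?_ ?_)
      · fin_cases k
        · exact le_max_left _ _
        · exact le_max_right _ _
      · exact Pool.Agent.Q183.AM.le_siz (n := 1) v z 0
      · exact Pool.Agent.Q183.AM.le_siz (n := 1) v z 1
    have e1 : max (FinitePlace.mk v (X 0 : K)) (FinitePlace.mk v (X 1 : K)) =
        FinitePlace.mk v (X 1 : K) *
          max (FinitePlace.mk v ((X 0 : K) / (X 1 : K))) (FinitePlace.mk v 1) := by
      rw [mul_max_of_nonneg _ _ h5.le, map_one, mul_one, map_div₀, mul_div_cancel₀ _ h5.ne']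
    have c0 : ((Pool.Agent.Q183.VC.eqn K a i 0 : 𝓞 K) : K) = ((a i).den : K) :=
      map_natCast (algebraMap (𝓞 K) K) _
    have c1 : ((Pool.Agent.Q183.VC.eqn K a i 1 : 𝓞 K) : K) = -((a i).num : K) := by
      show algebraMap (𝓞 K) K (-((a i).num : 𝓞 K)) = _
      rw [map_neg, map_intCast]
    have e2 : max (FinitePlace.mk v ((Pool.Agent.Q183.VC.eqn K a i 0 : 𝓞 K) : K))
        (FinitePlace.mk v ((Pool.Agent.Q183.VC.eqn K a i 1 : 𝓞 K) : K)) =
        max (FinitePlace.mk v (al K a i).1) (FinitePlace.mk v (al K a i).2) := by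
      rw [c0, c1, max_comm, map_neg_eq_map (FinitePlace.mk v)]
      rfl
    have e3 : ∑ k, ((Pool.Agent.Q183.VC.eqn K a i k : 𝓞 K) : K) * (X k : K) =
        (X 1 : K) * ((X 0 : K) / (X 1 : K) * (al K a i).2 - 1 * (al K a i).1) := by
      rw [Pool.Agent.Q183.VC.eqn_form a i fun k => (X k : K)]
      show ((a i).den : K) * (X 0 : K) - ((a i).num : K) * (X 1 : K) =
        (X 1 : K) * ((X 0 : K) / (X 1 : K) * ((a i).den : K) - 1 * ((a i).num : K))
      field_simp
    unfold Pool.Agent.Q183.AM.lam
    rw [hs, hs, e1, e2, e3, map_mul, mul_assoc, mul_div_mul_left _ _ h5.ne']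
  unfold counting Pool.Agent.Q183.AM.Ntr
  rw [mul_finsum]
  refine finsum_congr fun v => ?_
  rw [finsum_eq_if, finsum_eq_if]
  split_ifs with hv
  · rw [mul_zero]
  · rw [Finset.mul_sum]
    refine Finset.sum_congr rfl fun i _ => ?_
    rw [mul_min_of_nonneg _ _ hd0.le, mul_div_cancel₀ _ hd0.ne', mul_div_cancel₀ _ hd0.ne', key,
      Nat.cast_one, one_mul]

/-- the truncated counting function is at most the support of the values -/
theorem counting_le {S : Finset ℕ} (a : Fin q → ℚ) {x : K} (hx : ∀ j, x ≠ (a j : K)) :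
    (Module.finrank ℚ K : ℝ) * counting (Pool.Agent.Q183.VC.badT K S a) (al K a) x ≤
      Pool.Agent.W223.VD.cnt S (fun j => Pool.Agent.W223.AC.pt (a j)) x := by
  obtain ⟨X0, X1, hX1, rfl⟩ := IsFractionRing.div_surjective (A := 𝓞 K) x
  have hX1' : X1 ≠ 0 := nonZeroDivisors.ne_zero hX1
  have h1 := counting_eq (Pool.Agent.Q183.VC.badT K S a) a ![X0, X1] hX1'
  have h2 := Pool.Agent.Q183.VC.ntr_le_cnt (S := S) a ![X0, X1] hX1' (by
    intro i h0
    rw [Pool.Agent.Q183.VC.eqn_form a i fun k => ((![X0, X1] k : 𝓞 K) : K)] at h0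
    apply hx i
    have h2 : (X1 : K) ≠ 0 := RingOfIntegers.coe_ne_zero_iff.mpr hX1'
    have h3 : ((a i).den : K) ≠ 0 := by exact_mod_cast (a i).den_nz
    have h4 : ((a i).den : K) * (X0 : K) - ((a i).num : K) * (X1 : K) = 0 := h0
    show (X0 : K) / (X1 : K) = _
    rw [Rat.cast_def, div_eq_div_iff h2 h3]
    linear_combination h4)
  rw [← h1] at h2
  exact h2

end P

end Pool.Agent.Q14.CV
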